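import Pool.Agent.Helper56_MG.Stmts2

/-!
# The second Menger set
-/

open Set

namespace Pool.Agent.MG.H44

open MeasureTheory
open Pool.Agent.FL (Ix)
open Pool.Agent.Men (iv iv2)
open Pool.Agent.MG

theorem dep_mono {X : Sort*} {ρ ρ' : JJ} (h : ρ ≤ ρ') {f : PJ → X} (hf : Dep ρ f) : Dep ρ' f :=
  fun y y' hy => hf y y' fun i hi => hy i (lt_of_lt_of_le hi h)

theorem meas_iv (a : ℕ) : MeasurableSet (iv a) := measurableSet_Ioo

theorem meas_mem {fr : PJ → ℝ} (hfr : Measurable fr) {g : PJ → ℕ} (hg : Measurable g) :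
    MeasurableSet {z | fr z ∈ iv (g z)} := by
  have e : {z | fr z ∈ iv (g z)} = ⋃ a, ({z | g z = a} ∩ fr ⁻¹' (iv a)) := by
    ext z
    simp
  rw [e]
  exact MeasurableSet.iUnion fun a => (hg (measurableSet_singleton a)).inter (hfr (meas_iv a))

theorem meas_app {c : PJ → ℕ → ℕ} (hc : Measurable c) (m : ℕ) : Measurable fun z => c z m :=
  (measurable_pi_apply m).comp hc

/-- Least elements are measurable. -/
theorem meas_sInf {Ω : Type*} [MeasurableSpace Ω] (P : Ω → ℕ → Prop)
    (hP : ∀ k, MeasurableSet {z | P z k}) : Measurable fun z => sInf {k | P z k} := by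
  refine measurable_to_countable' fun a => ?_
  have e1 : (fun z => sInf {k | P z k}) ⁻¹' {a} =
      ({z | P z a} ∩ ⋂ k, ⋂ (_ : k < a), {z | P z k}ᶜ) ∪ ({z | a = 0} ∩ ⋂ k, {z | P z k}ᶜ) := by
    ext z
    have hmem : ∀ k, k ∈ {k | P z k} ↔ P z k := fun k => Iff.rfl
    simp only [mem_preimage, mem_singleton_iff, mem_union, mem_inter_iff, mem_iInter,
      mem_compl_iff]
    constructor
    · intro h
      rcases Set.eq_empty_or_nonempty {k | P z k} with h0 | h0
      · right
        refine ⟨?_, fun k hk => ?_⟩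
        · rw [h0, Nat.sInf_empty] at h
          exact h.symm
        · have : k ∈ {k | P z k} := hk
          rw [h0] at this
          exact this
      · left
        have h1 := Nat.sInf_mem h0
        rw [h] at h1
        refine ⟨h1, fun k hk hk' => ?_⟩
        rw [← h] at hk
        exact Nat.notMem_of_lt_sInf hk hk'
    · rintro (⟨h1, h2⟩ | ⟨h1, h2⟩)
      · have h3 : P z a := h1
        have h4 : sInf {k | P z k} ∈ {k | P z k} := Nat.sInf_mem ⟨a, h3⟩
        refine le_antisymm (Nat.sInf_le h3) ?_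
        by_contra hlt
        push Not at hlt
        exact h2 _ hlt h4
      · have h3 : {k | P z k} = ∅ := Set.eq_empty_iff_forall_notMem.2 h2
        have h4 : a = 0 := h1
        rw [h3, Nat.sInf_empty, h4]
  rw [e1]
  refine MeasurableSet.union ((hP a).inter ?_) (MeasurableSet.inter (MeasurableSet.const _) ?_)
  · exact MeasurableSet.iInter fun k => MeasurableSet.iInter fun _ => (hP k).compl
  · exact MeasurableSet.iInter fun k => (hP k).compl

/-- The next one is a measurable function. -/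
theorem meas_nxt (n : ℕ) : Measurable fun x : R => nxt x n := by
  refine meas_sInf (fun (x : R) k => n ≤ k ∧ x k = true) fun k => ?_
  by_cases hnk : n ≤ k
  · have : {x : R | n ≤ k ∧ x k = true} = (fun x : R => x k) ⁻¹' {true} := by
      ext x; simp [hnk]
    rw [this]
    exact measurable_pi_apply k (measurableSet_singleton _)
  · have : {x : R | n ≤ k ∧ x k = true} = ∅ := by
      ext x; simp [hnk]
    rw [this]
    exact MeasurableSet.empty

/-- A name which exists before the Miller real number `γ`. -/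
theorem small (hJC : JConstStmt) (hTh : ThinmStmt) (fr : PJ → ℝ) (hfr : Measurable fr) (γ : Ix)
    (hdf : Dep (JJ.m γ) fr) (c : PJ → ℕ → ℕ) (hc : Measurable c) (hdc : Dep (JJ.m γ) c) (e : PP)
    (hcov : ∀ d ≤ e, ∀ n, ¬ ∀ z ∈ d.1.body, ∀ k, fr z ∉ iv (c z (Nat.pair n k)))
    (d : PP) (hd : d ≤ e) :
    ¬ ∀ z ∈ d.1.body, ∀ n, ∀ k ≤ nxt (z (JJ.m γ)) n, fr z ∉ iv (c z (Nat.pair n k)) := by
  intro hcon
  have hmt : JJ.m γ ≤ te := le_of_lt (by simp [te])
  let A : ℕ → Set PJ := fun n => {z | ∀ k, fr z ∉ iv (c z (Nat.pair n k))}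
  have hA : ∀ n, Ms (A n) := by
    intro n
    refine ⟨?_, ?_⟩
    · have e1 : A n = ⋂ k, {z | fr z ∈ iv (c z (Nat.pair n k))}ᶜ := by
        ext z
        simp [A]
      rw [e1]
      exact MeasurableSet.iInter fun k => (meas_mem hfr (meas_app hc _)).compl
    · intro y y' hy
      have h1 : fr y = fr y' := dep_mono hmt hdf y y' hy
      have h2 : c y = c y' := dep_mono hmt hdc y y' hy
      show (∀ k, fr y ∉ iv (c y (Nat.pair n k))) = (∀ k, fr y' ∉ iv (c y' (Nat.pair n k)))
      rw [h1, h2]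
  obtain ⟨q, hq, hqA⟩ := hJC.2.1 d A hA (fun n q hq hqA =>
    hcov q (hq.trans hd) n fun z hz => hqA hz)
  let P : PJ → ℕ → ℕ → Prop := fun z n k => fr z ∈ iv (c z (Nat.pair n k))
  have hP : ∀ z ∈ q.1.body, ∀ n, ∃ k, P z n k := by
    intro z hz n
    by_contra hk
    push Not at hk
    exact Set.disjoint_left.1 (hqA n) hz hk
  let f : PJ → ℕ → ℕ := fun z n => sInf {k | P z n k}
  have hPm : ∀ n k, MeasurableSet {z | P z n k} := fun n k => meas_mem hfr (meas_app hc _)
  have hf : Measurable f := by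
    rw [measurable_pi_iff]
    intro n
    exact meas_sInf (fun z k => P z n k) (hPm n)
  have hdf' : Dep (JJ.m γ) f := by
    intro y y' hy
    have h1 : fr y = fr y' := hdf y y' hy
    have h2 : c y = c y' := hdc y y' hy
    funext n
    show sInf {k | fr y ∈ iv (c y (Nat.pair n k))} = sInf {k | fr y' ∈ iv (c y' (Nat.pair n k))}
    rw [h1, h2]
  obtain ⟨q2, hq2, n, -, hn⟩ := hTh γ q f hf hdf' Set.univ Set.infinite_univ
  have hne : ¬ ∀ z ∈ q2.1.body, ∀ k, fr z ∉ iv (c z (Nat.pair 0 k)) :=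
    hcov q2 ((hq2.trans hq).trans hd) 0
  push Not at hne
  obtain ⟨z, hz, -⟩ := hne
  have hzq : z ∈ q.1.body := hq2 hz
  exact hcon z (hq hzq) n (f z n) (hn z hz).le (Nat.sInf_mem (hP z hzq n))

/-- A name in a compact set which exists before the Miller real number `γ`. -/
theorem big (hTh : ThinmStmt) (ff : Set Node → (ℕ → ℕ) → ℕ → ℕ)
    (hff : Measurable (fun z : Set Node × (ℕ → ℕ) => ff z.1 z.2))
    (hff2 : ∀ K c, (∀ n F, ∀ x ∈ bS K, ∃ k, eR (chg x F) ∈ iv (c (Nat.pair n k))) →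
      ∀ n, ∀ x ∈ bS K, ∀ x' : R, (∀ i, n ≤ i → i < ff K c n → x' i = x i) →
        ∃ k ≤ ff K c n, eR x' ∈ iv (c (Nat.pair n k)))
    (γ : Ix) (c : PJ → ℕ → ℕ) (hc : Measurable c) (hdc : Dep (JJ.m γ) c) (q : PP)
    (K : PJ → Set Node) (hK : Measurable K) (hdK : Dep (JJ.m γ) K) (x x' : PJ → R)
    (hx : ∀ z ∈ q.1.body, x z ∈ bS (K z))
    (hcov : ∀ z ∈ q.1.body, ∀ n F, ∀ x ∈ bS (K z), ∃ k, eR (chg x F) ∈ iv (c z (Nat.pair n k)))
    (B : Set ℕ) (hB : B.Infinite)
    (hg : ∀ z ∈ q.1.body, ∀ n ∈ B, ∀ i, n ≤ i → i < ff (K z) (c z) n → x' z i = x z i) :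
    ∃ q' ≤ q, ∀ z ∈ q'.1.body, ∃ n, ∃ k ≤ nxt (z (JJ.m γ)) n,
      eR (x' z) ∈ iv (c z (Nat.pair n k)) := by
  have hm : Measurable fun z => ff (K z) (c z) := hff.comp (hK.prodMk hc)
  have hd : Dep (JJ.m γ) fun z => ff (K z) (c z) := by
    intro y y' hy
    show ff (K y) (c y) = ff (K y') (c y')
    rw [hdK y y' hy, hdc y y' hy]
  obtain ⟨q', hq', n, hn, h⟩ := hTh γ q _ hm hd B hB
  refine ⟨q', hq', fun z hz => ?_⟩
  have hzq : z ∈ q.1.body := hq' hz
  obtain ⟨k, hk, hk2⟩ := hff2 (K z) (c z) (hcov z hzq) n (x z) (hx z hzq) (x' z) (hg z hzq n hn)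
  exact ⟨n, k, hk.trans (h z hz).le, hk2⟩

theorem inf_range (F : Finset ℕ) {B : Set ℕ} (hB : B.Infinite) :
    (B ∩ {n | ∀ i ∈ F, i < n}).Infinite := by
  have h1 : (B \ Set.Iic (F.sup id)).Infinite := hB.sdiff (Set.finite_Iic _)
  refine h1.mono fun n hn => ⟨hn.1, fun i hi => ?_⟩
  have h2 : i ≤ F.sup id := Finset.le_sup (f := id) hi
  have h3 : ¬ n ≤ F.sup id := hn.2
  omega

theorem chg_of_lt {F : Finset ℕ} {n : ℕ} (h : ∀ i ∈ F, i < n) {i : ℕ} (hi : n ≤ i) (x : R) :
    chg x F i = x i := by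
  have : i ∉ F := fun h' => absurd (h i h') (not_lt.2 hi)
  simp [chg, this]

theorem cpl_cpl (x : R) : cpl (cpl x) = x := by
  funext n
  simp [cpl]

theorem jymen (hCov : CovStmt JJ) (hFact4 : Fact4Stmt JJ) (hNew : JNewStmt) (hEe : EeStmt)
    (hComp : CompStmt) (hTh : ThinmStmt) (hJC : JConstStmt) (hEx : JExStmt) (hBnd : BndStmt)
    (hCpl : CplfStmt) : JYmenStmt := by
  intro e c hcN hcov
  obtain ⟨EE, hEEm, hEE⟩ := hEe
  obtain ⟨ff, hff, hff2⟩ := hComp
  obtain ⟨⟨ct, hctm, hct, hctG⟩, hctF⟩ := hCpl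
  obtain ⟨k1, hk1⟩ := hBnd.2.2.2.1 c hcN
  have hcm : Measurable c := hcN.1
  set k0 : Ix := k1 with hk0
  -- the coordinates
  set γ : Ix := ixs (ixs k0) with hγ
  have h01 : k0 < ixs k0 := lt_ixs k0
  have h12 : ixs k0 < γ := lt_ixs _
  have hs0 : JJ.s k0 ≤ JJ.m γ := le_of_lt (by simpa using (h01.trans h12).le)
  have hdc : Dep (JJ.m γ) c := dep_mono hs0 hk1
  let h : PJ → ℕ → ℕ := fun z n => nxt (z (JJ.m γ)) n
  have hh : Nm h := by
    refine ⟨?_, ?_⟩
    · rw [measurable_pi_iff]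
      intro n
      exact (meas_nxt n).comp (measurable_pi_apply _)
    · intro y y' hy
      show (fun n => nxt (y (JJ.m γ)) n) = fun n => nxt (y' (JJ.m γ)) n
      rw [hy (JJ.m γ) (by simp [te])]
  refine ⟨h, hh, ?_⟩
  rintro ⟨b, k, F⟩ d hd
  by_cases hk : k ≤ ixs k0
  · -- small coordinates
    have hle : JJ.s (ixs k) ≤ JJ.m γ := by
      apply le_of_lt
      rw [JJ.s_lt_m]
      refine ixs_le (lt_of_le_of_lt hk h12)
    exact small hJC hTh (fY (b, k, F)) (hEx.2 (b, k, F)).1 γ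
      (dep_mono hle (hEx.2 (b, k, F)).2) c hcm hdc e (fun d hd n => hcov (b, k, F) d hd n) d hd
  · push Not at hk
    -- the closed sets
    let cdn : ℕ → ℕ × Finset ℕ := fun n => (Denumerable.eqv (ℕ × Finset ℕ)).symm n
    let E : ℕ → PJ → Set Node := fun n z => EE (c z) (cdn n).1 (cdn n).2
    have hEm : ∀ n, Measurable (E n) := fun n => (hEEm _ _).comp hcm
    have hk0e : JJ.s k0 ≤ JJ.s (ixs k0) := le_of_lt (by simpa using h01)
    have hEd : ∀ n, Dep (JJ.s (ixs k0)) (E n) := by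
      intro n y y' hy
      show EE (c y) _ _ = EE (c y') _ _
      rw [dep_mono hk0e hk1 y y' hy]
    have hsl : JJ.s (ixs k0) < JJ.s k := by simpa using hk
    have hst : JJ.s k < te := by simp [te]
    have hKle : nx (JJ.s (ixs k0)) ≤ JJ.m γ := by
      rw [nx_s]
      exact le_of_lt (by simpa using h12)
    have hKle2 : nx (JJ.s (ixs k0)) ≤ JJ.m k := by
      rw [nx_s]
      exact le_of_lt (by simpa using hk)
    -- membership in the closed sets
    have hmem : ∀ n z x, x ∈ bS (E n z) ↔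
        ∀ k, eR (chg x (cdn n).2) ∉ iv (c z (Nat.pair (cdn n).1 k)) := fun n z x => hEE _ _ _ _
    have hcdn : ∀ a F, ∃ n, cdn n = (a, F) := fun a F =>
      ⟨Denumerable.eqv (ℕ × Finset ℕ) (a, F), Equiv.symm_apply_apply _ _⟩
    intro hcon
    cases b with
    | true =>
      -- the complements
      obtain ⟨q', hq', hVq', K, hKm, hKd, hKq⟩ := hCov (JJ.s k0) (JJ.s (ixs k0)) rfl rfl rfl rfl
        te d.1 d.2 (fun n z => ct (E n z))
        (fun n => ⟨hctm.comp (hEm n), fun y y' hy => by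
          show ct (E n y) = ct (E n y')
          rw [hEd n y y' hy]⟩)
        (by
          intro n q ρ T hVq hqd hρ hTm hTd hTF hcon2
          obtain ⟨q2, hq2, l, hl⟩ := hNew ⟨q, hVq⟩ ρ T hρ hTm hTd hTF (fun y hy => (hcon2 y hy).1)
          refine hcov (true, l, (cdn n).2) q2 ((hq2.trans (show (⟨q, hVq⟩ : PP) ≤ d from hqd)).trans
            hd) (cdn n).1 fun z hz k' => ?_
          have h1 : z (JJ.s l) ∈ bS (ct (E n z)) := (hcon2 z (hq2 hz)).2 (hl z hz)
          rw [hct, hmem] at h1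
          simpa [fY] using h1 k')
        (JJ.s k) rfl hsl hst d.1 d.2 le_rfl
      let q1 : PP := ⟨q', hVq'⟩
      have hq1 : q1 ≤ d := hq'
      obtain ⟨q2, hq2, hq2'⟩ := big hTh ff hff hff2 γ c hcm hdc q1 (fun z => ct (K z))
        (hctm.comp hKm) (fun y y' hy => by
          show ct (K y) = ct (K y')
          rw [dep_mono hKle hKd y y' hy])
        (fun z => cpl (z (JJ.s k))) (fun z => chg (cpl (z (JJ.s k))) F)
        (fun z hz => by
          rw [hct, cpl_cpl]
          exact (hKq z hz).1)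
        (fun z hz n F' x hx => by
          rw [hct] at hx
          obtain ⟨a, ha⟩ := hcdn n F'
          have h1 : cpl x ∉ bS (ct (E a z)) := Set.disjoint_left.1 ((hKq z hz).2 a) hx
          rw [hct, cpl_cpl, hmem, ha] at h1
          push Not at h1
          exact h1)
        (Set.univ ∩ {n | ∀ i ∈ F, i < n}) (inf_range F Set.infinite_univ)
        (fun z hz n hn i hi _ => chg_of_lt hn.2 hi _)
      have hne := hcov (true, k, F) q2 ((hq2.trans hq1).trans hd) 0
      push Not at hne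
      obtain ⟨z, hz, -⟩ := hne
      obtain ⟨n, k', hk', hk2⟩ := hq2' z hz
      exact hcon z (hq1 (hq2 hz)) n k' hk' (by simpa [fY] using hk2)
    | false =>
      obtain ⟨q', hq', hVq', K, hKm, hKd, hKq⟩ := hCov (JJ.s k0) (JJ.s (ixs k0)) rfl rfl rfl rfl
        te d.1 d.2 E (fun n => ⟨hEm n, hEd n⟩)
        (by
          intro n q ρ T hVq hqd hρ hTm hTd hTF hcon2
          obtain ⟨q2, hq2, l, hl⟩ := hNew ⟨q, hVq⟩ ρ (fun y => ct (T y)) hρ (hctm.comp hTm)
            (fun y y' hy => by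
              show ct (T y) = ct (T y')
              rw [hTd y y' hy])
            (by
              have h1 := hctF ρ _ hTF
              have e1 : (fun y => bS (ct (T y))) = fun y => {x | cpl x ∈ bS (T y)} := by
                funext y
                ext x
                exact hct _ _
              rw [e1]
              exact h1)
            (fun y hy => hctG _ (hcon2 y hy).1)
          refine hcov (true, l, (cdn n).2) q2 ((hq2.trans (show (⟨q, hVq⟩ : PP) ≤ d from hqd)).trans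
            hd) (cdn n).1 fun z hz k' => ?_
          have h1 : z (JJ.s l) ∈ bS (ct (T z)) := hl z hz
          rw [hct] at h1
          have h2 := (hcon2 z (hq2 hz)).2 h1
          rw [hmem] at h2
          simpa [fY] using h2 k')
        (JJ.s k) rfl hsl hst d.1 d.2 le_rfl
      let q1 : PP := ⟨q', hVq'⟩
      have hq1 : q1 ≤ d := hq'
      have hfm : Measurable fun z => ff (K z) (c z) := hff.comp (hKm.prodMk hcm)
      have hfd : Dep (JJ.m k) fun z => ff (K z) (c z) := by
        intro y y' hy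
        show ff (K y) (c y) = ff (K y') (c y')
        have h0k : JJ.s k0 ≤ JJ.m k := le_of_lt (by simpa using (h01.trans hk).le)
        rw [dep_mono hKle2 hKd y y' hy, dep_mono h0k hk1 y y' hy]
      obtain ⟨q2, hq2, hV2, B, hB, hgap⟩ := hFact4 te (JJ.m k) rfl (by simp [te]) q1.1 q1.2 _
        hfm hfd
      let q3 : PP := ⟨q2, hV2⟩
      have hq3 : q3 ≤ q1 := hq2
      obtain ⟨q4, hq4, hq4'⟩ := big hTh ff hff hff2 γ c hcm hdc q3 K
        hKm (dep_mono hKle hKd)
        (fun z => z (JJ.s k)) (fun z => chg (sm (z (JJ.s k)) (z (JJ.m k))) F)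
        (fun z hz => (hKq z (hq3 hz)).1)
        (fun z hz n F' x hx => by
          obtain ⟨a, ha⟩ := hcdn n F'
          have h1 : x ∉ bS (E a z) := Set.disjoint_left.1 ((hKq z (hq3 hz)).2 a) hx
          rw [hmem, ha] at h1
          push Not at h1
          exact h1)
        (B ∩ {n | ∀ i ∈ F, i < n}) (inf_range F hB)
        (fun z hz n hn i hi hi2 => by
          rw [chg_of_lt hn.2 hi]
          have h1 := hgap z hz n hn.1 i hi hi2
          simp [sm, h1])
      have hne := hcov (true, k, F) q4 (((hq4.trans hq3).trans hq1).trans hd) 0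
      push Not at hne
      obtain ⟨z, hz, -⟩ := hne
      obtain ⟨n, k', hk', hk2⟩ := hq4' z hz
      exact hcon z (hq1 (hq3 (hq4 hz))) n k' hk' (by simpa [fY] using hk2)

end Pool.Agent.MG.H44
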